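import Pool.Agent.Helper55.CP.Ctx

/-! Existence of the continuous chain. -/

set_option autoImplicit false

open Cardinal Ordinal Set Filter Helper23.Pcf

universe u

namespace Helper55.CP

/-- the chain obtained by iterating `st` -/
noncomputable def iterSt (st : Set Ordinal.{u} → Set Ordinal.{u}) (B : Set Ordinal.{u})
    (ε : Ordinal.{u}) : Set Ordinal.{u} :=
  B ∪ ⋃ η : Set.Iio ε, st (iterSt st B η.1)
termination_by ε
decreasing_by exact η.2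

theorem iterSt_eq (st : Set Ordinal.{u} → Set Ordinal.{u}) (B : Set Ordinal.{u})
    (ε : Ordinal.{u}) : iterSt st B ε = B ∪ ⋃ η : Set.Iio ε, st (iterSt st B η.1) := by
  rw [iterSt]

theorem mem_iterSt {st : Set Ordinal.{u} → Set Ordinal.{u}} {B : Set Ordinal.{u}}
    {ε z : Ordinal.{u}} : z ∈ iterSt st B ε ↔ z ∈ B ∨ ∃ η < ε, z ∈ st (iterSt st B η) := by
  rw [iterSt_eq]
  constructor
  · rintro (h | h)
    · exact Or.inl h
    · obtain ⟨η, hη⟩ := mem_iUnion.1 h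
      exact Or.inr ⟨η.1, η.2, hη⟩
  · rintro (h | ⟨η, h1, h2⟩)
    · exact Or.inl h
    · exact Or.inr (mem_iUnion.2 ⟨⟨η, h1⟩, h2⟩)

theorem chain_exists_of (T : Data.{u}) (S : Scales T) {J : Type u}
    (G : J → List Ordinal.{u} → Ordinal.{u}) (B : Set Ordinal.{u})
    (hB : #B ≤ Cardinal.lift.{u+1} T.μ)
    (hstep : ∀ M : Set Ordinal.{u}, #M ≤ Cardinal.lift.{u+1} T.μ →
    ∃ M' : Set Ordinal.{u}, M ⊆ M' ∧ #M' ≤ Cardinal.lift.{u+1} T.μ ∧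
      (∀ j l, (∀ z ∈ l, z ∈ M) → G j l ∈ M') ∧
      (∀ p, chi M (T.c p).ord ∈ M') ∧
      (∀ q, ∃ ξ ∈ M', ξ < (T.c (T.lam q)).ord ∧ ∀ᶠ p in T.D q, chi M (T.c p).ord < S.f q ξ p) ∧
      (∀ q p', T.c p' < T.c (T.lam q) → ∃ g : T.P → Ordinal.{u},
        (∀ p, g p ∈ M' ∧ g p < (T.c p).ord) ∧
        ∀ l : List Ordinal.{u}, (∀ z ∈ l, z < (T.c p').ord) →
          ∀ᶠ p in T.D q, ∀ z ∈ Clo G (M ∪ ls l), z < (T.c p).ord → z < g p)) :
    ∃ N, Chain T S G B N := by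
  classical
  have hμ : ℵ₀ ≤ T.μ := T.hκ.trans T.hκμ
  have hch : ∀ M : Set Ordinal.{u}, ∃ M' : Set Ordinal.{u},
      #M ≤ Cardinal.lift.{u+1} T.μ → M ⊆ M' ∧ #M' ≤ Cardinal.lift.{u+1} T.μ ∧
      (∀ j l, (∀ z ∈ l, z ∈ M) → G j l ∈ M') ∧
      (∀ p, Helper55.CP.chi M (T.c p).ord ∈ M') ∧
      (∀ q, ∃ ξ ∈ M', ξ < (T.c (T.lam q)).ord ∧
        ∀ᶠ p in T.D q, Helper55.CP.chi M (T.c p).ord < S.f q ξ p) ∧
      (∀ q p', T.c p' < T.c (T.lam q) → ∃ g : T.P → Ordinal.{u},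
        (∀ p, g p ∈ M' ∧ g p < (T.c p).ord) ∧
        ∀ l : List Ordinal.{u}, (∀ z ∈ l, z < (T.c p').ord) →
          ∀ᶠ p in T.D q, ∀ z ∈ Clo G (M ∪ ls l), z < (T.c p).ord → z < g p) := by
    intro M
    by_cases hM : #M ≤ Cardinal.lift.{u+1} T.μ
    · obtain ⟨M', hM'⟩ := hstep M hM
      exact ⟨M', fun _ => hM'⟩
    · exact ⟨∅, fun h => absurd h hM⟩
  choose st hst using hch
  have hcard : ∀ ε < (Order.succ T.μ).ord, #(iterSt st B ε) ≤ Cardinal.lift.{u+1} T.μ := by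
    intro ε
    induction ε using WellFoundedLT.induction with
    | ind ε ih =>
      intro hε
      rw [iterSt_eq]
      have h0 : ℵ₀ ≤ Cardinal.lift.{u+1} T.μ := Cardinal.aleph0_le_lift.2 hμ
      refine (Cardinal.mk_union_le _ _).trans (Cardinal.add_le_of_le h0 hB ?_)
      refine mk_iUnion_small hμ _ ?_ fun η => ?_
      · rw [Cardinal.mk_Iio_ordinal]
        refine Cardinal.lift_le.2 ?_
        exact Order.lt_succ_iff.1 (Cardinal.lt_ord.1 hε)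
      · exact (hst _ (ih η.1 η.2 (lt_trans η.2 hε))).2.1
  have hsub : ∀ η ε, η < ε → st (iterSt st B η) ⊆ iterSt st B ε := fun η ε h z hz =>
    mem_iterSt.2 (Or.inr ⟨η, h, hz⟩)
  refine ⟨iterSt st B, ⟨fun ε z hz => mem_iterSt.2 (Or.inl hz), fun η ε h z hz => ?_,
    fun ε hε z hz => ?_, hcard, fun η ε h hε j l hl => ?_, fun η ε h hε p => ?_,
    fun η ε h hε q => ?_, fun η ε h hε q p' hp => ?_⟩⟩
  · rcases mem_iterSt.1 hz with h1 | ⟨ζ, h1, h2⟩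
    · exact mem_iterSt.2 (Or.inl h1)
    · exact mem_iterSt.2 (Or.inr ⟨ζ, h1.trans_le h, h2⟩)
  · rcases mem_iterSt.1 hz with h1 | ⟨ζ, h1, h2⟩
    · exact ⟨0, hε.bot_lt, mem_iterSt.2 (Or.inl h1)⟩
    · exact ⟨Order.succ ζ, hε.succ_lt h1, hsub _ _ (Order.lt_succ ζ) h2⟩
  · exact hsub _ _ h ((hst _ (hcard η (h.trans hε))).2.2.1 j l hl)
  · exact hsub _ _ h ((hst _ (hcard η (h.trans hε))).2.2.2.1 p)
  · obtain ⟨ξ, h1, h2, h3⟩ := (hst _ (hcard η (h.trans hε))).2.2.2.2.1 q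
    exact ⟨ξ, hsub _ _ h h1, h2, h3⟩
  · obtain ⟨g, h1, h2⟩ := (hst _ (hcard η (h.trans hε))).2.2.2.2.2 q p' hp
    exact ⟨g, fun p => ⟨hsub _ _ h (h1 p).1, (h1 p).2⟩, h2⟩

end Helper55.CP
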