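import Pool.Agent.Helper57.CP.Chain
import Pool.Agent.Helper63.CP.Step

/-! Existence of the continuous chain, final form. -/

set_option autoImplicit false

open Cardinal Ordinal Set Filter Helper23.Pcf

universe u

namespace Helper55.CP

theorem chain_exists (T : Data.{u}) (S : Scales T) {J : Type u} (hJ : #J ≤ T.μ)
    (G : J → List Ordinal.{u} → Ordinal.{u}) (B : Set Ordinal.{u})
    (hB : #B ≤ Cardinal.lift.{u+1} T.μ) : ∃ N, Chain T S G B N :=
  chain_exists_of T S G B hB (fun M hM => step_exists T S hJ G M hM)

end Helper55.CP
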